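import Mathlib.Logic.Equiv.PartialEquiv
import Mathlib.Topology.Sheaves.Presheaf
import Mathlib.Tactic.ENatToNat
import Mathlib.Tactic.Monotonicity.Lemmas
import Mathlib.Data.Int.ConditionallyCompleteOrder
import Mathlib.Data.Int.Star
import Mathlib.Algebra.Order.Ring.Star
import Mathlib.Tactic.Bound
import Mathlib.Data.Finset.Functor
import Mathlib.Data.Nat.ChineseRemainder
import Mathlib.RingTheory.PiTensorProduct
import Mathlib.RingTheory.WittVector.IsPoly
import Mathlib.Tactic.Polynomial.Basic
import Mathlib.Tactic.ReduceModChar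

-- ======== part 0: formerly Pool.Agent.MP_687188_co.Tiling
section MrgPart0

/-!
Stick-breaking families of interval packings: every length occurs with weight at least `1 / length`.
-/

namespace Pool.Agent.MP_687188_co

open Finset

/-- `T` is a set of pairwise disjoint intervals `[p.1, p.1 + p.2)` inside `[0, l)`. -/
def IsPack (l : ℕ) (T : Finset (ℕ × ℕ)) : Prop :=
  (∀ p ∈ T, p.1 + p.2 ≤ l) ∧ ∀ p ∈ T, ∀ q ∈ T, p ≠ q → p.1 + p.2 ≤ q.1 ∨ q.1 + q.2 ≤ p.1

/-- number of intervals of length `b` in `T`. -/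
def cnt (b : ℕ) (T : Finset (ℕ × ℕ)) : ℕ := (T.filter (fun p => p.2 = b)).card

lemma IsPack.insert_top {l L : ℕ} {T : Finset (ℕ × ℕ)} (h : IsPack l T) (hl : l ≤ L) :
    IsPack L (insert (l, L - l) T) := by
  refine ⟨?_, ?_⟩
  · intro p hp
    rcases mem_insert.1 hp with rfl | hp
    · simp only; omega
    · have := h.1 p hp; omega
  · intro p hp q hq hpq
    rcases mem_insert.1 hp with rfl | hp
    · rcases mem_insert.1 hq with rfl | hq
      · exact absurd rfl hpq
      · right; exact h.1 q hq
    · rcases mem_insert.1 hq with rfl | hq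
      · left; exact h.1 p hp
      · exact h.2 p hp q hq hpq

lemma cnt_insert_top {l L b : ℕ} {T : Finset (ℕ × ℕ)} (h : IsPack l T) (hl : l < L) :
    cnt b (insert (l, L - l) T) = cnt b T + if L - l = b then 1 else 0 := by
  have hn : (l, L - l) ∉ T := by
    intro hm
    have := h.1 _ hm
    simp only at this
    omega
  unfold cnt
  rw [filter_insert]
  split_ifs with hb
  · rw [card_insert_of_notMem]
    intro hm
    exact hn (mem_filter.1 hm).1
  · simp

/-- A family of `D` packings of `[0, l)` in which every length `b ∈ [1, l]` occurs at least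
`D / b` times. -/
def GoodFam (l D : ℕ) (F : Multiset (Finset (ℕ × ℕ))) : Prop :=
  F.card = D ∧ (∀ T ∈ F, IsPack l T) ∧ ∀ b, 1 ≤ b → b ≤ l → D ≤ b * (F.map (cnt b)).sum

lemma step (A R D : ℕ) (ih : ∀ l, l < A + R → ∃ F, GoodFam l D F) :
    ∃ F : Multiset (Finset (ℕ × ℕ)), F.card = R * D ∧ (∀ T ∈ F, IsPack (2 * A + R) T) ∧
      ∀ b, A < b → b ≤ A + R → (A + R) * D ≤ b * (F.map (cnt b)).sum := by
  classical
  choose! G hG using ih
  refine ⟨∑ i ∈ range R, (G (A + i)).map (insert (A + i, 2 * A + R - (A + i))), ?_, ?_, ?_⟩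
  · rw [Multiset.card_sum]
    rw [sum_congr rfl (g := fun _ => D)]
    · simp
    · intro i hi
      rw [Multiset.card_map]
      exact (hG (A + i) (by have := mem_range.1 hi; omega)).1
  · intro T hT
    rw [Multiset.mem_sum] at hT
    obtain ⟨i, hi, hT⟩ := hT
    obtain ⟨T', hT', rfl⟩ := Multiset.mem_map.1 hT
    have hi' := mem_range.1 hi
    exact ((hG (A + i) (by omega)).2.1 T' hT').insert_top (by omega)
  · intro b hb1 hb2
    have key : ∀ i ∈ range R,
        (if A + i + b = 2 * A + R then b * D else 0) + (if b ≤ A + i then D else 0) ≤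
        b * (((G (A + i)).map (insert (A + i, 2 * A + R - (A + i)))).map (cnt b)).sum := by
      intro i hi
      have hi' := mem_range.1 hi
      obtain ⟨hc, hp, hb⟩ := hG (A + i) (by omega)
      have e1 : (((G (A + i)).map (insert (A + i, 2 * A + R - (A + i)))).map (cnt b)).sum =
          ((G (A + i)).map (cnt b)).sum + (if 2 * A + R - (A + i) = b then 1 else 0) * D := by
        rw [Multiset.map_map]
        rw [Multiset.map_congr rfl (g := fun T => cnt b T + if 2 * A + R - (A + i) = b then 1 else 0)]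
        · rw [Multiset.sum_map_add]
          simp [hc, mul_comm]
        · intro T hT
          exact cnt_insert_top (hp T hT) (by omega)
      rw [e1, mul_add]
      have h1 : (if b ≤ A + i then D else 0) ≤ b * ((G (A + i)).map (cnt b)).sum := by
        split_ifs with h
        · exact hb b (by omega) h
        · exact Nat.zero_le _
      have h2 : (if A + i + b = 2 * A + R then b * D else 0) ≤
          b * ((if 2 * A + R - (A + i) = b then 1 else 0) * D) := by
        split_ifs with h h'
        · simp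
        · omega
        · exact Nat.zero_le _
        · exact Nat.zero_le _
      omega
    have hs := sum_le_sum key
    rw [← mul_sum, sum_add_distrib] at hs
    have e2 : ∑ i ∈ range R, (if A + i + b = 2 * A + R then b * D else 0) = b * D := by
      rw [sum_eq_single (A + R - b)]
      · rw [if_pos (by omega)]
      · intro i _ hi
        rw [if_neg (by omega)]
      · intro h
        exact absurd (mem_range.2 (by omega)) h
    have e3 : ∑ i ∈ range R, (if b ≤ A + i then D else 0) = (A + R - b) * D := by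
      rw [← sum_filter]
      have : (range R).filter (fun i => b ≤ A + i) = Ico (b - A) R := by
        ext i; simp only [mem_filter, mem_range, mem_Ico]; omega
      rw [this]
      simp only [sum_const, Nat.card_Ico, smul_eq_mul]
      congr 1
      omega
    rw [e2, e3] at hs
    have e4 : (Multiset.map (cnt b) (∑ i ∈ range R,
        (G (A + i)).map (insert (A + i, 2 * A + R - (A + i))))).sum =
        ∑ i ∈ range R, (((G (A + i)).map (insert (A + i, 2 * A + R - (A + i)))).map (cnt b)).sum := by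
      induction (range R) using Finset.induction_on with
      | empty => simp
      | insert j s hj ihs => rw [sum_insert hj, sum_insert hj, Multiset.map_add, Multiset.sum_add, ihs]
    rw [e4]
    have e5 : (A + R) * D = b * D + (A + R - b) * D := by
      rw [← add_mul]; congr 1; omega
    omega

lemma exists_goodFam (l : ℕ) : ∀ D, l.factorial ∣ D → ∃ F, GoodFam l D F := by
  induction l using Nat.strong_induction_on with
  | _ l ih =>
    intro D hD
    rcases l with _ | l
    · refine ⟨Multiset.replicate D ∅, by simp, ?_, ?_⟩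
      · intro T hT
        rw [Multiset.eq_of_mem_replicate hT]
        exact ⟨by simp, by simp⟩
      · intro b h1 h2; omega
    · obtain ⟨c, rfl⟩ := hD
      obtain ⟨F, h1, h2, h3⟩ := step 0 (l + 1) (l.factorial * c) (by
        intro m hm
        exact ih m (by omega) _ (Dvd.dvd.mul_right (Nat.factorial_dvd_factorial (by omega)) c))
      have e : (l + 1).factorial * c = (l + 1) * (l.factorial * c) := by
        rw [Nat.factorial_succ]; ring
      refine ⟨F, by rw [h1, e], ?_, ?_⟩
      · simpa using h2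
      · intro b hb1 hb2
        have := h3 b (by omega) (by omega)
        rw [e]; simpa using this

lemma exists_enum {α : Type*} [Inhabited α] (F : Multiset α) :
    ∃ T : ℕ → α, (∀ i < F.card, T i ∈ F) ∧
      ∀ f : α → ℕ, ∑ i ∈ range F.card, f (T i) = (F.map f).sum := by
  induction F using Multiset.induction_on with
  | empty => exact ⟨fun _ => default, by simp, by simp⟩
  | cons a F ih =>
    obtain ⟨T, h1, h2⟩ := ih
    refine ⟨fun i => if i < F.card then T i else a, ?_, ?_⟩
    · intro i _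
      by_cases h : i < F.card
      · simp only [if_pos h]; exact Multiset.mem_cons_of_mem (h1 i h)
      · simp only [if_neg h]; exact Multiset.mem_cons_self _ _
    · intro f
      rw [Multiset.card_cons, sum_range_succ, Multiset.map_cons, Multiset.sum_cons, ← h2 f]
      simp only [lt_irrefl, if_false]
      rw [add_comm]
      congr 1
      exact sum_congr rfl fun i hi => by rw [if_pos (mem_range.1 hi)]

/-- The layers: `R * D` packings of `[0, 2A+R)` in which each length `b ∈ (A, A+R]` occurs at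
least `(A+R) D / b` times. -/
theorem exists_layers (A R D : ℕ) (hD : (A + R).factorial ∣ D) :
    ∃ T : ℕ → Finset (ℕ × ℕ), (∀ i < R * D, IsPack (2 * A + R) (T i)) ∧
      ∀ b, A < b → b ≤ A + R → (A + R) * D ≤ b * ∑ i ∈ range (R * D), cnt b (T i) := by
  obtain ⟨F, h1, h2, h3⟩ := step A R D (fun l hl =>
    exists_goodFam l D ((Nat.factorial_dvd_factorial hl.le).trans hD))
  obtain ⟨T, hT1, hT2⟩ := exists_enum F
  rw [h1] at hT1 hT2
  refine ⟨T, fun i hi => h2 _ (hT1 i hi), fun b hb1 hb2 => ?_⟩
  rw [hT2]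
  exact h3 b hb1 hb2

end Pool.Agent.MP_687188_co

end MrgPart0

-- ======== part 1: formerly Pool.Agent.MP_687188_co.Slots
section MrgPart1

/-!
Slots: each pair (length `a`, class `u`) gets a layer and a starting height.
-/

namespace Pool.Agent.MP_687188_co

open Finset

/-- none of the `n` intervals `[y + j a, y + j a + h)` crosses a multiple of `A`. -/
def Good (n A h y a : ℕ) : Prop := ∀ j < n, (y + j * a) / A = (y + j * a + h - 1) / A

lemma slot_le {n h a z g j : ℕ} (hg : g < a / h) (_hj : j < n) :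
    n * z + g * h + j * a + h ≤ n * z + (j + 1) * a := by
  have h1 : (g + 1) * h ≤ a := by
    calc (g + 1) * h ≤ (a / h) * h := Nat.mul_le_mul_right h hg
      _ ≤ a := Nat.div_mul_le_self a h
  nlinarith

open Classical in
lemma good_count (n A h C a z : ℕ) (hA : 0 < A) (hh : 0 < h) (hC : n * (z + a) ≤ C * A) :
    a / h ≤ ((range (a / h)).filter (fun g => Good n A h (n * z + g * h) a)).card + n * C := by
  have hsplit := card_filter_add_card_filter_not (s := range (a / h))
    (fun g => Good n A h (n * z + g * h) a)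
  rw [card_range] at hsplit
  have hbad : ((range (a / h)).filter (fun g => ¬ Good n A h (n * z + g * h) a)).card ≤ n * C := by
    have hsub : (range (a / h)).filter (fun g => ¬ Good n A h (n * z + g * h) a) ⊆
        (range n).biUnion (fun j => (range (a / h)).filter (fun g =>
          (n * z + g * h + j * a) / A ≠ (n * z + g * h + j * a + h - 1) / A)) := by
      intro g hg
      rw [mem_filter] at hg
      obtain ⟨hg1, hg2⟩ := hg
      unfold Good at hg2
      push Not at hg2
      obtain ⟨j, hj, hne⟩ := hg2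
      exact mem_biUnion.2 ⟨j, mem_range.2 hj, mem_filter.2 ⟨hg1, hne⟩⟩
    refine (card_le_card hsub).trans (card_biUnion_le.trans ?_)
    have : ∀ j ∈ range n, ((range (a / h)).filter (fun g =>
          (n * z + g * h + j * a) / A ≠ (n * z + g * h + j * a + h - 1) / A)).card ≤ C := by
      intro j hj
      have hj' := mem_range.1 hj
      have hmono : ∀ g g', g < g' →
          (n * z + g' * h + j * a) / A ≠ (n * z + g' * h + j * a + h - 1) / A →
          (n * z + g * h + j * a + h - 1) / A < (n * z + g' * h + j * a + h - 1) / A := by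
        intro g g' hlt hne
        have h1 : (g + 1) * h ≤ g' * h := Nat.mul_le_mul_right h hlt
        have h2 : (n * z + g * h + j * a + h - 1) / A ≤ (n * z + g' * h + j * a) / A :=
          Nat.div_le_div_right (by nlinarith [Nat.sub_le (n * z + g * h + j * a + h) 1])
        have h3 : (n * z + g' * h + j * a) / A ≤ (n * z + g' * h + j * a + h - 1) / A :=
          Nat.div_le_div_right (by omega)
        omega
      rw [← card_range C]
      apply card_le_card_of_injOn (fun g => (n * z + g * h + j * a + h - 1) / A)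
      · intro g hg
        have hg' := mem_range.1 (mem_filter.1 hg).1
        have h1 := slot_le (z := z) hg' hj'
        have h2 : (j + 1) * a ≤ n * a := Nat.mul_le_mul_right a hj'
        simp only [coe_range, Set.mem_Iio]
        rw [Nat.div_lt_iff_lt_mul hA]
        have h3 : n * (z + a) = n * z + n * a := by ring
        omega
      · intro g hg g' hg' he
        simp only at he
        rcases lt_trichotomy g g' with hl | hl | hl
        · have := hmono g g' hl (mem_filter.1 hg').2; omega
        · exact hl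
        · have := hmono g' g hl (mem_filter.1 hg).2; omega
    calc _ ≤ ∑ _j ∈ range n, C := sum_le_sum this
      _ = n * C := by simp
  omega

theorem exists_slots (n A R h C D γ : ℕ) (hA : 0 < A) (hh : 0 < h)
    (hD : (A + R).factorial ∣ D) (hC : n * (2 * A + R) ≤ C * A)
    (hnum : ∀ a, A < a → a ≤ A + R → γ * a ≤ (A + R) * D * (a / h - n * C)) :
    ∃ lam y : ℕ → ℕ → ℕ,
      (∀ a u, A < a → a ≤ A + R → u < γ → lam a u < R * D ∧
        (∀ j < n, y a u + j * a + h ≤ n * (2 * A + R)) ∧ Good n A h (y a u) a) ∧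
      ∀ a u a' u' j j' p, A < a → a ≤ A + R → u < γ → A < a' → a' ≤ A + R → u' < γ →
        j < n → j' < n → lam a u = lam a' u' →
        y a u + j * a ≤ p → p < y a u + j * a + h →
        y a' u' + j' * a' ≤ p → p < y a' u' + j' * a' + h → a = a' ∧ u = u' ∧ j = j' := by
  classical
  obtain ⟨T, hT1, hT2⟩ := exists_layers A R D hD
  let S : ℕ → Finset (Σ _ : ℕ, Σ _ : ℕ × ℕ, ℕ) := fun a =>
    (range (R * D)).sigma (fun i => ((T i).filter (fun p => p.2 = a)).sigma (fun p =>
      (range (a / h)).filter (fun g => Good n A h (n * p.1 + g * h) a)))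
  have hcard : ∀ a, A < a → a ≤ A + R → γ ≤ (S a).card := by
    intro a ha1 ha2
    have h1 : ∑ i ∈ range (R * D), cnt a (T i) * (a / h - n * C) ≤ (S a).card := by
      rw [card_sigma]
      apply sum_le_sum
      intro i hi
      rw [card_sigma, cnt, ← smul_eq_mul, ← sum_const]
      apply sum_le_sum
      intro p hp
      obtain ⟨hp1, hp2⟩ := mem_filter.1 hp
      have h2 := (hT1 i (mem_range.1 hi)).1 p hp1
      have h3 := good_count n A h C a p.1 hA hh
        ((Nat.mul_le_mul_left n (by omega)).trans hC)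
      omega
    rw [← sum_mul] at h1
    have h2 := hT2 a ha1 ha2
    have h3 := hnum a ha1 ha2
    have h4 : γ * a ≤ (∑ i ∈ range (R * D), cnt a (T i)) * (a / h - n * C) * a := by
      calc γ * a ≤ (A + R) * D * (a / h - n * C) := h3
        _ ≤ (a * ∑ i ∈ range (R * D), cnt a (T i)) * (a / h - n * C) :=
          Nat.mul_le_mul_right _ h2
        _ = _ := by ring
    exact (Nat.le_of_mul_le_mul_right h4 (by omega)).trans h1
  have hemb : ∀ a, A < a → a ≤ A + R → ∃ f : ℕ → (Σ _ : ℕ, Σ _ : ℕ × ℕ, ℕ),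
      (∀ u < γ, f u ∈ S a) ∧ ∀ u < γ, ∀ u' < γ, f u = f u' → u = u' := by
    intro a ha1 ha2
    obtain ⟨f, hf⟩ := Function.Embedding.exists_of_card_le_finset (α := Fin γ) (s := S a)
      (by simpa using hcard a ha1 ha2)
    refine ⟨fun u => if hu : u < γ then f ⟨u, hu⟩ else ⟨0, (0, 0), 0⟩, ?_, ?_⟩
    · intro u hu
      simp only [dif_pos hu]
      exact hf ⟨_, rfl⟩
    · intro u hu u' hu' he
      simp only [dif_pos hu, dif_pos hu'] at he
      simpa using f.injective he
  choose! f hf1 hf2 using hemb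
  have hmem : ∀ a u, A < a → a ≤ A + R → u < γ →
      (f a u).1 < R * D ∧ (f a u).2.1 ∈ T (f a u).1 ∧ (f a u).2.1.2 = a ∧
        (f a u).2.2 < a / h ∧ Good n A h (n * (f a u).2.1.1 + (f a u).2.2 * h) a := by
    intro a u ha1 ha2 hu
    have := hf1 a ha1 ha2 u hu
    simp only [S, mem_sigma, mem_range, mem_filter] at this
    exact ⟨this.1, this.2.1.1, this.2.1.2, this.2.2.1, this.2.2.2⟩
  refine ⟨fun a u => (f a u).1, fun a u => n * (f a u).2.1.1 + (f a u).2.2 * h, ?_, ?_⟩
  · intro a u ha1 ha2 hu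
    obtain ⟨h1, h2, h3, h4, h5⟩ := hmem a u ha1 ha2 hu
    refine ⟨h1, ?_, h5⟩
    intro j hj
    have h6 := slot_le (z := (f a u).2.1.1) h4 hj
    have h7 := (hT1 _ h1).1 _ h2
    have h8 : (j + 1) * a ≤ n * a := Nat.mul_le_mul_right a hj
    have h9 : n * ((f a u).2.1.1 + a) ≤ n * (2 * A + R) := Nat.mul_le_mul_left n (by omega)
    have h10 : n * ((f a u).2.1.1 + a) = n * (f a u).2.1.1 + n * a := by ring
    simp only
    omega
  · intro a u a' u' j j' p ha1 ha2 hu ha1' ha2' hu' hj hj' hl hp1 hp2 hp1' hp2'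
    obtain ⟨h1, h2, h3, h4, -⟩ := hmem a u ha1 ha2 hu
    obtain ⟨-, h2', h3', h4', -⟩ := hmem a' u' ha1' ha2' hu'
    simp only at hl hp1 hp2 hp1' hp2'
    have h6 := slot_le (z := (f a u).2.1.1) h4 hj
    have h6' := slot_le (z := (f a' u').2.1.1) h4' hj'
    have h8 : (j + 1) * a ≤ n * a := Nat.mul_le_mul_right a hj
    have h8' : (j' + 1) * a' ≤ n * a' := Nat.mul_le_mul_right a' hj'
    rw [← hl] at h2'
    have hblock : (f a u).2.1 = (f a' u').2.1 := by
      by_contra hne
      rcases (hT1 _ h1).2 _ h2 _ h2' hne with hle | hle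
      · have h9 := Nat.mul_le_mul_left n hle
        rw [h3, mul_add] at h9
        omega
      · have h9 := Nat.mul_le_mul_left n hle
        rw [h3', mul_add] at h9
        omega
    have haa : a = a' := by rw [← h3, ← h3', hblock]
    subst haa
    rw [← hblock] at hp1' hp2' h6'
    have hjj : j = j' := by
      by_contra hne
      rcases lt_or_gt_of_ne hne with hlt | hlt
      · have := Nat.mul_le_mul_right a (show j + 1 ≤ j' from hlt)
        omega
      · have := Nat.mul_le_mul_right a (show j' + 1 ≤ j from hlt)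
        omega
    subst hjj
    have hgg : (f a u).2.2 = (f a u').2.2 := by
      by_contra hne
      rcases lt_or_gt_of_ne hne with hlt | hlt
      · have := Nat.mul_le_mul_right h (show (f a u).2.2 + 1 ≤ (f a u').2.2 from hlt)
        rw [add_mul] at this
        omega
      · have := Nat.mul_le_mul_right h (show (f a u').2.2 + 1 ≤ (f a u).2.2 from hlt)
        rw [add_mul] at this
        omega
    refine ⟨rfl, hf2 a ha1 ha2 u hu u' hu' ?_, rfl⟩
    rcases hfu : f a u with ⟨x1, x2, x3⟩
    rcases hfu' : f a u' with ⟨y1, y2, y3⟩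
    rw [hfu, hfu'] at hl hblock hgg
    simp only at hl hblock hgg
    subst hl hblock hgg
    rfl

end Pool.Agent.MP_687188_co

end MrgPart1

-- ======== part 2: formerly Pool.Agent.MP_687188_co.Kind
section MrgPart2

/-!
The Chinese remainder design for one class of differences.
-/

namespace Pool.Agent.MP_687188_co

open Finset

/-- the pairwise coprime moduli. -/
def Qm (t γ i : ℕ) : ℕ := 1 + (t + i) * γ

lemma Qm_pos (t γ i : ℕ) : 0 < Qm t γ i := by unfold Qm; omega

lemma Qm_coprime_of_dvd (t γ i r : ℕ) (hr : r ∣ γ) : Nat.Coprime (Qm t γ i) r := by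
  obtain ⟨c, rfl⟩ := hr
  unfold Qm
  have : (t + i) * (r * c) = ((t + i) * c) * r := by ring
  rw [this]
  simp

lemma Qm_coprime_small {B : ℕ} (t γ i r : ℕ) (hγ : B.factorial ∣ γ) (hr0 : 0 < r) (hr : r ≤ B) :
    Nat.Coprime (Qm t γ i) r :=
  Qm_coprime_of_dvd t γ i r ((Nat.dvd_factorial hr0 hr).trans hγ)

lemma Qm_coprime_lt {B : ℕ} (t γ i i' : ℕ) (hγ : B.factorial ∣ γ) (hi : i < i') (hi' : i' < B) :
    Nat.Coprime (Qm t γ i) (Qm t γ i') := by
  obtain ⟨r, rfl⟩ := Nat.exists_eq_add_of_lt hi
  have e : Qm t γ (i + r + 1) = Qm t γ i + (r + 1) * γ := by unfold Qm; ring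
  rw [e, Nat.coprime_self_add_right]
  exact Nat.Coprime.mul_right (Qm_coprime_small t γ i (r + 1) hγ (by omega) (by omega))
    (Qm_coprime_of_dvd t γ i γ dvd_rfl)

lemma Qm_coprime {B : ℕ} (t γ i i' : ℕ) (hγ : B.factorial ∣ γ) (hi : i < B) (hi' : i' < B)
    (hne : i ≠ i') : Nat.Coprime (Qm t γ i) (Qm t γ i') := by
  rcases lt_or_gt_of_ne hne with h | h
  · exact Qm_coprime_lt t γ i i' hγ h hi'
  · exact (Qm_coprime_lt t γ i' i hγ h hi).symm

lemma crt (B t γ : ℕ) (hγ : B.factorial ∣ γ) (w r : ℕ → ℕ) :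
    ∃ φ < ∏ i ∈ range B, Qm t γ i, ∀ i < B, φ + w i ≡ r i [MOD Qm t γ i] := by
  have hs : ∀ i ∈ range B, Qm t γ i ≠ 0 := fun i _ => (Qm_pos t γ i).ne'
  have pp : Set.Pairwise (range B : Set ℕ) (Function.onFun Nat.Coprime (Qm t γ)) := by
    intro i hi i' hi' hne
    exact Qm_coprime t γ i i' hγ (by simpa using hi) (by simpa using hi') hne
  refine ⟨Nat.chineseRemainderOfFinset (fun i => r i + ((t + i) * γ) * w i) (Qm t γ) (range B) hs pp,
    Nat.chineseRemainderOfFinset_lt_prod _ _ hs pp, ?_⟩
  intro i hi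
  have h := (Nat.chineseRemainderOfFinset (fun i => r i + ((t + i) * γ) * w i) (Qm t γ)
    (range B) hs pp).2 i (mem_range.2 hi)
  have h2 := h.add_right (w i)
  refine h2.trans ?_
  have e : r i + (t + i) * γ * w i + w i = r i + Qm t γ i * w i := by unfold Qm; ring
  rw [e]
  simp [Nat.ModEq]

lemma modEq_prod (C B t γ : ℕ) (hγ : B.factorial ∣ γ) (hC : C ≤ B) (x x' : ℕ)
    (h : ∀ c < C, x ≡ x' [MOD Qm t γ c]) : x ≡ x' [MOD ∏ c ∈ range C, Qm t γ c] := by
  induction C with
  | zero => simp [Nat.modEq_one]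
  | succ C ih =>
    rw [prod_range_succ]
    rw [← Nat.modEq_and_modEq_iff_modEq_mul]
    · exact ⟨ih (by omega) (fun c hc => h c (by omega)), h C (by omega)⟩
    · apply Nat.Coprime.prod_left
      intro c hc
      have := mem_range.1 hc
      exact Qm_coprime t γ c C hγ (by omega) (by omega) (by omega)

lemma cancel_aux {N j J φ φ' δ δ' : ℕ} (hlt : j < J) (hco : Nat.Coprime N (J - j))
    (h1 : φ + j * δ ≡ φ' + j * δ' [MOD N]) (h2 : φ + J * δ ≡ φ' + J * δ' [MOD N]) :
    δ ≡ δ' [MOD N] := by
  obtain ⟨r, rfl⟩ := Nat.exists_eq_add_of_le hlt.le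
  rw [Nat.add_sub_cancel_left] at hco
  have e1 : φ + (j + r) * δ = (φ + j * δ) + r * δ := by ring
  have e2 : φ' + (j + r) * δ' = (φ' + j * δ') + r * δ' := by ring
  rw [e1, e2] at h2
  have h3 : r * δ ≡ r * δ' [MOD N] := Nat.ModEq.add_left_cancel h1 h2
  exact Nat.ModEq.cancel_left_of_coprime hco h3

theorem kind (n C t γ T W : ℕ) (hγ : (C + n).factorial ∣ γ) (hγ0 : 0 < γ)
    (hW : W = (∏ c ∈ range C, Qm t γ c) * γ * T)
    (hbig : n * ((∏ c ∈ range C, Qm t γ c) * γ) + ∏ i ∈ range (C + n), Qm t γ i ≤ W)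
    (y a lam : ℕ) (cell : ℕ → ℕ) (hcell : ∀ j < n, cell j < C)
    (hinj : ∀ j < n, ∀ j' < n, cell j = cell j' → j = j') :
    ∃ s : ℕ → ℕ,
      (∀ d, d / W = a → ∀ j < n, (y + j * a) * W ≤ s d + j * d ∧
        s d + j * d < (y + j * a + (t + C + n + 1)) * W ∧
        s d + j * d ≡ lam [MOD Qm t γ (cell j)]) ∧
      ∀ d d', d / W = a → d' / W = a → d % γ = d' % γ → ∀ j < n,
        s d + j * d = s d' + j * d' → d = d' := by
  classical
  set P := ∏ c ∈ range C, Qm t γ c with hP
  set Φ := ∏ i ∈ range (C + n), Qm t γ i with hΦ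
  have hP0 : 0 < P := prod_pos fun c _ => Qm_pos t γ c
  have hΦ0 : 0 < Φ := prod_pos fun c _ => Qm_pos t γ c
  have hPγ : 0 < P * γ := Nat.mul_pos hP0 hγ0
  have hW0 : 0 < W := by omega
  have hPd : ∀ c < C, Qm t γ c ∣ P := fun c hc => dvd_prod_of_mem _ (mem_range.2 hc)
  obtain ⟨J, hJ1, hJ2, hJ3⟩ : ∃ J : ℕ → ℕ, (∀ c, J c ≤ n) ∧ (∀ j < n, J (cell j) = j) ∧
      ∀ c, ∀ j < n, J c = j → c = cell j := by
    refine ⟨fun c => if h : ∃ j < n, cell j = c then h.choose else n, ?_, ?_, ?_⟩
    · intro c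
      by_cases h : ∃ j < n, cell j = c
      · simp only [dif_pos h]; exact h.choose_spec.1.le
      · simp only [dif_neg h]; exact le_rfl
    · intro j hj
      have h : ∃ j' < n, cell j' = cell j := ⟨j, hj, rfl⟩
      simp only [dif_pos h]
      exact hinj _ h.choose_spec.1 _ hj h.choose_spec.2
    · intro c j hj he
      by_cases h : ∃ j < n, cell j = c
      · simp only [dif_pos h] at he
        rw [← he]; exact h.choose_spec.2.symm
      · simp only [dif_neg h] at he
        omega
  have hφ : ∀ δ : ℕ, ∃ φ < Φ, (∀ c < C, φ + J c * δ ≡ lam [MOD Qm t γ c]) ∧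
      ∀ j < n, φ + ((y + j * a) * W + j * δ) ≡ δ % Qm t γ (cell j) [MOD Qm t γ (C + j)] := by
    intro δ
    obtain ⟨φ, h1, h2⟩ := crt (C + n) t γ hγ
      (fun i => if i < C then J i * δ else (y + (i - C) * a) * W + (i - C) * δ)
      (fun i => if i < C then lam else δ % Qm t γ (cell (i - C)))
    refine ⟨φ, h1, ?_, ?_⟩
    · intro c hc
      have := h2 c (by omega)
      simpa only [if_pos hc] using this
    · intro j hj
      have := h2 (C + j) (by omega)
      simpa only [if_neg (show ¬ C + j < C by omega), Nat.add_sub_cancel_left] using this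
  choose φ hφ1 hφ2 hφ3 using hφ
  have hdec : ∀ d, d / W = a → d = a * W + P * γ * ((d % W) / (P * γ)) + d % (P * γ) := by
    intro d hd
    have h1 := Nat.div_add_mod d W
    have h2 := Nat.div_add_mod (d % W) (P * γ)
    have h3 : d % W % (P * γ) = d % (P * γ) := Nat.mod_mod_of_dvd d ⟨T, hW⟩
    rw [hd, mul_comm W a] at h1
    omega
  have hform : ∀ d, d / W = a → ∀ j,
      y * W + P * Qm t γ C * ((d % W) / (P * γ)) + φ (d % (P * γ)) + j * d =
      (y + j * a) * W + P * Qm t γ (C + j) * ((d % W) / (P * γ)) + j * (d % (P * γ))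
        + φ (d % (P * γ)) := by
    intro d hd j
    have h := hdec d hd
    generalize (d % W) / (P * γ) = e at h ⊢
    generalize d % (P * γ) = δ at h ⊢
    rw [h]
    unfold Qm
    ring
  have hWd : ∀ c < C, Qm t γ c ∣ W := fun c hc => by
    rw [hW, mul_assoc]; exact (hPd c hc).mul_right _
  have hred : ∀ c < C, ∀ j e δ, (y + j * a) * W + P * Qm t γ (C + j) * e + j * δ + φ δ ≡
      φ δ + j * δ [MOD Qm t γ c] := by
    intro c hc j e δ
    have h1 : Qm t γ c ∣ (y + j * a) * W + P * Qm t γ (C + j) * e :=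
      Dvd.dvd.add ((hWd c hc).mul_left _) (((hPd c hc).mul_right _).mul_right _)
    have h2 : (y + j * a) * W + P * Qm t γ (C + j) * e ≡ 0 [MOD Qm t γ c] :=
      (Nat.modEq_zero_iff_dvd).2 h1
    have h3 := h2.add_right (j * δ + φ δ)
    rw [zero_add, ← add_assoc, add_comm (j * δ)] at h3
    exact h3
  refine ⟨fun d => y * W + P * Qm t γ C * ((d % W) / (P * γ)) + φ (d % (P * γ)), ?_, ?_⟩
  · intro d hd j hj
    simp only
    rw [hform d hd j]
    have he : (d % W) / (P * γ) < T := by
      rw [Nat.div_lt_iff_lt_mul hPγ]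
      have := Nat.mod_lt d hW0
      calc d % W < W := this
        _ = T * (P * γ) := by rw [hW]; ring
    have hδ : d % (P * γ) < P * γ := Nat.mod_lt d hPγ
    generalize (d % W) / (P * γ) = e at he ⊢
    generalize d % (P * γ) = δ at hδ ⊢
    refine ⟨by omega, ?_, ?_⟩
    · have h1 : P * Qm t γ (C + j) * e ≤ (t + C + n) * W := by
        have h2 : Qm t γ (C + j) ≤ (t + C + n) * γ := by
          unfold Qm
          have : (t + (C + j) + 1) * γ ≤ (t + C + n) * γ := Nat.mul_le_mul_right γ (by omega)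
          rw [add_mul] at this
          omega
        calc P * Qm t γ (C + j) * e ≤ P * ((t + C + n) * γ) * T :=
            Nat.mul_le_mul (Nat.mul_le_mul_left P h2) he.le
          _ = (t + C + n) * W := by rw [hW]; ring
      have h3 : j * δ ≤ n * (P * γ) := Nat.mul_le_mul hj.le hδ.le
      have h4 := hφ1 δ
      have h5 : (y + j * a + (t + C + n + 1)) * W = (y + j * a) * W + (t + C + n) * W + W := by ring
      omega
    · refine (hred _ (hcell j hj) j e δ).trans ?_
      have := hφ2 δ _ (hcell j hj)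
      rwa [hJ2 j hj] at this
  · intro d d' hd hd' hu j hj heq
    simp only at heq
    rw [hform d hd j, hform d' hd' j] at heq
    have hδ : d % (P * γ) < P * γ := Nat.mod_lt d hPγ
    have hδ' : d' % (P * γ) < P * γ := Nat.mod_lt d' hPγ
    have hu' : d % (P * γ) ≡ d' % (P * γ) [MOD γ] := by
      unfold Nat.ModEq
      rw [Nat.mod_mod_of_dvd d (Dvd.intro_left P rfl), Nat.mod_mod_of_dvd d' (Dvd.intro_left P rfl), hu]
    rw [hdec d hd, hdec d' hd']
    generalize (d % W) / (P * γ) = e at heq ⊢
    generalize (d' % W) / (P * γ) = e' at heq ⊢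
    generalize d % (P * γ) = δ at heq hδ hu' ⊢
    generalize d' % (P * γ) = δ' at heq hδ' hu' ⊢
    have hM : ∀ e δ, (y + j * a) * W + P * Qm t γ (C + j) * e + j * δ + φ δ ≡
        δ % Qm t γ (cell j) [MOD Qm t γ (C + j)] := by
      intro e δ
      refine Nat.ModEq.trans ?_ (hφ3 δ j hj)
      have e1 : (y + j * a) * W + P * Qm t γ (C + j) * e + j * δ + φ δ =
          φ δ + ((y + j * a) * W + j * δ) + Qm t γ (C + j) * (P * e) := by ring
      rw [e1]
      simp [Nat.ModEq]
    have hle : Qm t γ (cell j) ≤ Qm t γ (C + j) := by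
      unfold Qm
      have := hcell j hj
      have : (t + cell j) * γ ≤ (t + (C + j)) * γ := Nat.mul_le_mul_right γ (by omega)
      omega
    have h1 : δ ≡ δ' [MOD Qm t γ (cell j)] := by
      have h2 := hM e δ
      rw [heq] at h2
      have h3 := h2.symm.trans (hM e' δ')
      exact Nat.ModEq.eq_of_lt_of_lt h3 ((Nat.mod_lt _ (Qm_pos _ _ _)).trans_le hle)
        ((Nat.mod_lt _ (Qm_pos _ _ _)).trans_le hle)
    have h4 : ∀ c < C, δ ≡ δ' [MOD Qm t γ c] := by
      intro c hc
      by_cases hcj : c = cell j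
      · rw [hcj]; exact h1
      · have hJ : J c ≠ j := fun h => hcj (hJ3 c j hj h)
        have h5 := hred c hc j e δ
        rw [heq] at h5
        have h6 := h5.symm.trans (hred c hc j e' δ')
        have h7 := (hφ2 δ c hc).trans (hφ2 δ' c hc).symm
        have h8 := hJ1 c
        rcases lt_or_gt_of_ne hJ with hlt | hlt
        · exact cancel_aux hlt (Qm_coprime_small t γ c _ hγ (by omega) (by omega)) h7 h6
        · exact cancel_aux hlt (Qm_coprime_small t γ c _ hγ (by omega) (by omega)) h6 h7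
    have h9 : δ ≡ δ' [MOD P] := modEq_prod C (C + n) t γ hγ (by omega) δ δ' h4
    have hco : Nat.Coprime P γ :=
      Nat.Coprime.prod_left fun c _ => Qm_coprime_of_dvd t γ c γ dvd_rfl
    have h10 : δ ≡ δ' [MOD P * γ] := (Nat.modEq_and_modEq_iff_modEq_mul hco).1 ⟨h9, hu'⟩
    have h11 : δ = δ' := Nat.ModEq.eq_of_lt_of_lt h10 hδ hδ'
    subst h11
    have h12 : P * Qm t γ (C + j) * e = P * Qm t γ (C + j) * e' := by omega
    have h13 : e = e' := Nat.eq_of_mul_eq_mul_left (Nat.mul_pos hP0 (Qm_pos _ _ _)) h12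
    rw [h13]

end Pool.Agent.MP_687188_co

end MrgPart2

-- ======== part 3: formerly Pool.Agent.MP_687188_co.Main
section MrgPart3

/-!
Assembling the packing.
-/

namespace Pool.Agent.MP_687188_co

open Finset

lemma greedy_aux (n K K' : ℕ) (hK : K' ≤ K) :
    ∃ s : ℕ → ℕ, (∀ d, s d ≤ n * n * K) ∧ ∀ d < K', ∀ d' < K', ∀ j < n, ∀ j' < n,
      s d + j * d = s d' + j' * d' → d = d' := by
  classical
  induction K' with
  | zero => exact ⟨fun _ => 0, by simp, by simp⟩
  | succ K' ih =>
    obtain ⟨s, hs1, hs2⟩ := ih (by omega)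
    let bad := (range K' ×ˢ range n ×ˢ range n).image
      (fun x : ℕ × ℕ × ℕ => s x.1 + x.2.1 * x.1 - x.2.2 * K')
    have hb : bad.card < (range (n * n * K + 1)).card := by
      have h1 : bad.card ≤ K' * (n * n) := card_image_le.trans (by simp)
      have h2 : K' * (n * n) ≤ K * (n * n) := Nat.mul_le_mul_right _ (by omega)
      rw [card_range]
      nlinarith
    obtain ⟨x, hx1, hx2⟩ := exists_mem_notMem_of_card_lt_card hb
    have hx : ∀ d' < K', ∀ j < n, ∀ j' < n, x + j * K' ≠ s d' + j' * d' := by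
      intro d' hd' j hj j' hj' he
      apply hx2
      refine mem_image.2 ⟨(d', j', j), by simp [hd', hj, hj'], ?_⟩
      simp only
      omega
    refine ⟨fun d => if d = K' then x else s d, ?_, ?_⟩
    · intro d
      by_cases h : d = K'
      · simp only [if_pos h]
        have := mem_range.1 hx1
        omega
      · simp only [if_neg h]; exact hs1 d
    · intro d hd d' hd' j hj j' hj' he
      by_cases h : d = K'
      · by_cases h' : d' = K'
        · rw [h, h']
        · simp only [if_pos h, if_neg h'] at he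
          rw [h] at he
          exact absurd he (hx d' (by omega) j hj j' hj')
      · by_cases h' : d' = K'
        · simp only [if_pos h', if_neg h] at he
          rw [h'] at he
          exact absurd he.symm (hx d (by omega) j' hj' j hj)
        · simp only [if_neg h, if_neg h'] at he
          exact hs2 d (by omega) d' (by omega) j hj j' hj' he

/-- the progressions `s d + j d` (`j < n`), `d < k`, are pairwise disjoint and lie in `[0, m)`. -/
def NatPack (n k m : ℕ) : Prop :=
  ∃ s : ℕ → ℕ, (∀ d < k, ∀ j < n, s d + j * d < m) ∧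
    ∀ d < k, ∀ d' < k, ∀ j < n, ∀ j' < n, s d + j * d = s d' + j' * d' → d = d'

lemma NatPack.mono {n k k' m : ℕ} (h : NatPack n k m) (hk : k' ≤ k) : NatPack n k' m := by
  obtain ⟨s, h1, h2⟩ := h
  exact ⟨s, fun d hd => h1 d (by omega), fun d hd d' hd' => h2 d (by omega) d' (by omega)⟩

theorem assemble (n A R C t D γ T W : ℕ) (hA : 0 < A) (hγ0 : 0 < γ)
    (hD : (A + R).factorial ∣ D) (hC : n * (2 * A + R) ≤ C * A)
    (hnum : ∀ a, A < a → a ≤ A + R → γ * a ≤ (A + R) * D * (a / (t + C + n + 1) - n * C))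
    (hγ : (C + n).factorial ∣ γ) (hlay : R * D ≤ t * γ)
    (hW : W = (∏ c ∈ range C, Qm t γ c) * γ * T)
    (hbig : n * ((∏ c ∈ range C, Qm t γ c) * γ) + ∏ i ∈ range (C + n), Qm t γ i ≤ W) :
    NatPack n ((A + R + 1) * W) (n * (2 * A + R) * W + (n * n + n) * ((A + 1) * W) + 1) := by
  classical
  have hΦ0 : 0 < ∏ i ∈ range (C + n), Qm t γ i := prod_pos fun c _ => Qm_pos t γ c
  have hW0 : 0 < W := by omega
  set h := t + C + n + 1 with hh
  obtain ⟨lam, y, hs1, hs2⟩ := exists_slots n A R h C D γ hA (by omega) hD hC hnum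
  have hk : ∀ a u, A < a → a ≤ A + R → u < γ → ∃ s : ℕ → ℕ,
      (∀ d, d / W = a → ∀ j < n, (y a u + j * a) * W ≤ s d + j * d ∧
        s d + j * d < (y a u + j * a + h) * W ∧
        s d + j * d ≡ lam a u [MOD Qm t γ ((y a u + j * a) / A)]) ∧
      ∀ d d', d / W = a → d' / W = a → d % γ = d' % γ → ∀ j < n,
        s d + j * d = s d' + j * d' → d = d' := by
    intro a u ha1 ha2 hu
    apply kind n C t γ T W hγ hγ0 hW hbig (y a u) a (lam a u) (fun j => (y a u + j * a) / A)
    · intro j hj
      have := (hs1 a u ha1 ha2 hu).2.1 j hj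
      rw [Nat.div_lt_iff_lt_mul hA]
      omega
    · have hm : ∀ j j', j < j' → (y a u + j * a) / A < (y a u + j' * a) / A := by
        intro j j' hlt
        have h1 : (j + 1) * a ≤ j' * a := Nat.mul_le_mul_right a hlt
        have h2 : (y a u + j * a + A) / A ≤ (y a u + j' * a) / A :=
          Nat.div_le_div_right (by rw [add_mul] at h1; omega)
        rw [Nat.add_div_right _ hA] at h2
        omega
      intro j _ j' _ he
      rcases lt_trichotomy j j' with hl | hl | hl
      · have := hm j j' hl; omega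
      · exact hl
      · have := hm j' j hl; omega
  choose! sk hk1 hk2 using hk
  obtain ⟨sg, hg1, hg2⟩ := greedy_aux n ((A + 1) * W) ((A + 1) * W) le_rfl
  have hdiv : ∀ d < (A + R + 1) * W, d / W ≤ A + R := by
    intro d hd
    have : d / W < A + R + 1 := by rwa [Nat.div_lt_iff_lt_mul hW0]
    omega
  have hsmall : ∀ d, ¬ A < d / W → d < (A + 1) * W := by
    intro d hd
    rw [← Nat.div_lt_iff_lt_mul hW0]
    omega
  have hlarge : ∀ d < (A + R + 1) * W, A < d / W → ∀ j < n,
      sk (d / W) (d % γ) d + j * d < n * (2 * A + R) * W := by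
    intro d hd ha j hj
    have h1 := (hk1 _ _ ha (hdiv d hd) (Nat.mod_lt d hγ0) d rfl j hj).2.1
    have h2 := (hs1 _ _ ha (hdiv d hd) (Nat.mod_lt d hγ0)).2.1 j hj
    exact h1.trans_le (Nat.mul_le_mul_right W h2)
  refine ⟨fun d => if A < d / W then sk (d / W) (d % γ) d else n * (2 * A + R) * W + sg d, ?_, ?_⟩
  · intro d hd j hj
    by_cases ha : A < d / W
    · simp only [if_pos ha]
      have := hlarge d hd ha j hj
      omega
    · simp only [if_neg ha]
      have h1 := hsmall d ha
      have h2 := hg1 d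
      have h3 : j * d ≤ n * ((A + 1) * W) := Nat.mul_le_mul hj.le h1.le
      rw [add_mul (n * n)]
      omega
  · intro d hd d' hd' j hj j' hj' he
    by_cases ha : A < d / W
    · by_cases ha' : A < d' / W
      · simp only [if_pos ha, if_pos ha'] at he
        have hu := Nat.mod_lt d hγ0
        have hu' := Nat.mod_lt d' hγ0
        obtain ⟨h1, h2, h3⟩ := hk1 _ _ ha (hdiv d hd) hu d rfl j hj
        obtain ⟨h1', h2', h3'⟩ := hk1 _ _ ha' (hdiv d' hd') hu' d' rfl j' hj'
        obtain ⟨g1, -, g3⟩ := hs1 _ _ ha (hdiv d hd) hu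
        obtain ⟨g1', -, g3'⟩ := hs1 _ _ ha' (hdiv d' hd') hu'
        rw [← he] at h1' h2' h3'
        set p := sk (d / W) (d % γ) d + j * d with hp
        have q1 : y (d / W) (d % γ) + j * (d / W) ≤ p / W := (Nat.le_div_iff_mul_le hW0).2 h1
        have q2 : p / W < y (d / W) (d % γ) + j * (d / W) + h := (Nat.div_lt_iff_lt_mul hW0).2 h2
        have q1' : y (d' / W) (d' % γ) + j' * (d' / W) ≤ p / W := (Nat.le_div_iff_mul_le hW0).2 h1'
        have q2' : p / W < y (d' / W) (d' % γ) + j' * (d' / W) + h :=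
          (Nat.div_lt_iff_lt_mul hW0).2 h2'
        have hcell : ∀ v w, v ≤ w → w < v + h → v / A = (v + h - 1) / A → v / A = w / A := by
          intro v w hv hw hvw
          have r1 : v / A ≤ w / A := Nat.div_le_div_right hv
          have r2 : w / A ≤ (v + h - 1) / A := Nat.div_le_div_right (by omega)
          omega
        rw [hcell _ _ q1 q2 (g3 j hj)] at h3
        rw [hcell _ _ q1' q2' (g3' j' hj')] at h3'
        have hQ : R * D ≤ Qm t γ (p / W / A) := by
          unfold Qm
          rw [add_mul]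
          omega
        have hl : lam (d / W) (d % γ) = lam (d' / W) (d' % γ) :=
          Nat.ModEq.eq_of_lt_of_lt (h3.symm.trans h3') (by omega) (by omega)
        obtain ⟨e1, e2, e3⟩ := hs2 _ _ _ _ j j' (p / W) ha (hdiv d hd) hu ha' (hdiv d' hd') hu' hj hj'
          hl q1 q2 q1' q2'
        subst e3
        rw [← e1, ← e2] at he
        exact hk2 _ _ ha (hdiv d hd) hu d d' rfl e1.symm e2 j hj he
      · simp only [if_pos ha, if_neg ha'] at he
        have := hlarge d hd ha j hj
        omega
    · by_cases ha' : A < d' / W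
      · simp only [if_neg ha, if_pos ha'] at he
        have := hlarge d' hd' ha' j' hj'
        omega
      · simp only [if_neg ha, if_neg ha'] at he
        exact hg2 d (hsmall d ha) d' (hsmall d' ha') j hj j' hj' (by omega)

lemma numeric (E B X a h t q : ℕ) (ht : t = 2 * (E + 1) * B) (hh : h = t + B) (hB : 0 < B)
    (ha : 2 * (E + 1) * h * (1 + X) < a) (hq : q = a / h) :
    E * a ≤ (E + 1) * t * (q - X) := by
  have hh0 : 0 < h := by omega
  have h1 : a < (q + 1) * h := by
    rw [hq, ← Nat.div_lt_iff_lt_mul hh0]; omega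
  have h2 : 2 * (E + 1) * (1 + X) ≤ q := by
    rw [hq, Nat.le_div_iff_mul_le hh0]
    nlinarith
  obtain ⟨r, hr⟩ : ∃ r, q = X + r := ⟨q - X, by nlinarith [Nat.sub_add_cancel (show X ≤ q by nlinarith)]⟩
  have h3 : q - X = r := by omega
  rw [h3]
  have h4 : h = (2 * E + 3) * B := by rw [hh, ht]; ring
  have h5 : E * (2 * E + 3) * (q + 1) ≤ 2 * (E + 1) ^ 2 * r := by
    subst hr
    nlinarith
  calc E * a ≤ E * ((q + 1) * h) := Nat.mul_le_mul_left E h1.le
    _ = (E * (2 * E + 3) * (q + 1)) * B := by rw [h4]; ring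
    _ ≤ (2 * (E + 1) ^ 2 * r) * B := Nat.mul_le_mul_right B h5
    _ = (E + 1) * t * r := by rw [ht]; ring

theorem upper (n E : ℕ) (hE : 0 < E) : ∃ c : ℕ, ∀ k, ∃ m, NatPack n (k + 1) m ∧
    (E + 1) * m ≤ (n * (E + 1) + (2 * n * n + 3 * n)) * k + c := by
  obtain ⟨C, hC⟩ : ∃ C, C = n * (E + 2) := ⟨_, rfl⟩
  obtain ⟨t, ht⟩ : ∃ t, t = 2 * (E + 1) * (C + n + 1) := ⟨_, rfl⟩
  obtain ⟨A, hA⟩ : ∃ A, A = 2 * (E + 1) * (t + C + n + 1) * (1 + n * C) := ⟨_, rfl⟩
  have hA0 : 0 < A := by rw [hA]; positivity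
  obtain ⟨R, hR⟩ : ∃ R, R = A * E := ⟨_, rfl⟩
  have hR0 : 0 < R := by rw [hR]; positivity
  obtain ⟨F, hF⟩ : ∃ F, F = (A + R + C + n).factorial := ⟨_, rfl⟩
  have hF0 : 0 < F := by rw [hF]; exact Nat.factorial_pos _
  obtain ⟨γ, hγ⟩ : ∃ γ, γ = R * F := ⟨_, rfl⟩
  have hγ0 : 0 < γ := by rw [hγ]; positivity
  obtain ⟨G, hG⟩ : ∃ G, G = (∏ c ∈ range C, Qm t γ c) * γ := ⟨_, rfl⟩
  have hG0 : 0 < G := by
    rw [hG]; exact Nat.mul_pos (prod_pos fun c _ => Qm_pos t γ c) hγ0
  obtain ⟨T0, hT0⟩ : ∃ T0, T0 = n * G + ∏ i ∈ range (C + n), Qm t γ i := ⟨_, rfl⟩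
  refine ⟨(n * (E + 1) + (2 * n * n + 3 * n)) * ((A + R) * G * (1 + T0)) + (E + 1), fun k => ?_⟩
  obtain ⟨T, hT⟩ : ∃ T, T = k / ((A + R) * G) + (1 + T0) := ⟨_, rfl⟩
  obtain ⟨W, hW⟩ : ∃ W, W = G * T := ⟨_, rfl⟩
  have hpack := assemble n A R C t (t * F) γ T W hA0 hγ0
    (by rw [hF]; exact Dvd.dvd.mul_left (Nat.factorial_dvd_factorial (by omega)) t)
    (by rw [hC, hR]; exact le_of_eq (by ring))
    (by
      intro a ha1 _
      have h1 := numeric E (C + n + 1) (n * C) a (t + C + n + 1) t (a / (t + C + n + 1)) ht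
        (by ring) (by omega) (by rw [← hA]; exact ha1) rfl
      calc γ * a = (A * F) * (E * a) := by rw [hγ, hR]; ring
        _ ≤ (A * F) * ((E + 1) * t * (a / (t + C + n + 1) - n * C)) := Nat.mul_le_mul_left _ h1
        _ = _ := by rw [hR]; ring)
    (by rw [hγ, hF]; exact Dvd.dvd.mul_left (Nat.factorial_dvd_factorial (by omega)) R)
    (by rw [hγ]; exact le_of_eq (by ring))
    (by rw [hW, hG])
    (by
      rw [← hG, ← hT0, hW]
      calc T0 ≤ T := by
            rw [hT]; exact (Nat.le_add_left T0 1).trans (Nat.le_add_left _ _)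
        _ ≤ G * T := Nat.le_mul_of_pos_left T hG0)
  have hLG : 0 < (A + R) * G := by positivity
  have hdm := Nat.div_add_mod k ((A + R) * G)
  have hmod := Nat.mod_lt k hLG
  have hLW : (A + R) * W = (A + R) * G * (k / ((A + R) * G)) + (A + R) * G * (1 + T0) := by
    rw [hW, hT]; ring
  have hk1 : k < (A + R) * W := by
    rw [hLW, mul_add, mul_one]; omega
  have hk2 : (A + R) * W ≤ k + (A + R) * G * (1 + T0) := by omega
  refine ⟨_, hpack.mono (by rw [add_mul (A + R)]; omega), ?_⟩
  have e1 : (E + 1) * (A * W) = (A + R) * W := by rw [hR]; ring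
  have e2 : (A + 1) * W ≤ 2 * (A * W) := by
    have : W ≤ A * W := Nat.le_mul_of_pos_left W hA0
    rw [add_mul]; omega
  calc (E + 1) * (n * (2 * A + R) * W + (n * n + n) * ((A + 1) * W) + 1)
      ≤ (E + 1) * (n * (2 * A + R) * W + (n * n + n) * (2 * (A * W)) + 1) := by gcongr
    _ = (n * (E + 1) + (2 * n * n + 3 * n)) * ((E + 1) * (A * W)) + (E + 1) := by rw [hR]; ring
    _ ≤ (n * (E + 1) + (2 * n * n + 3 * n)) * (k + (A + R) * G * (1 + T0)) + (E + 1) := by
      rw [e1]; gcongr
    _ = _ := by ring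

end Pool.Agent.MP_687188_co

end MrgPart3

-- marker of a merged file
example : 731051 + 317214 = 731051 + 317214 := rfl
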